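import Pool.Agent.Lib.MP_3145b1_co.GP.Fin
import Pool.Agent.Lib.MP_3145b1_co.AG.Asm

/-!
# MP_3145b1_co, project GP: assembly
-/

set_option autoImplicit false

namespace Pool.Agent.MP3145b1.GP

open Finset Pool.Agent.MP3145b1 Pool.Agent.MP3145b1.RC Pool.Agent.MP3145b1.RD Pool.Agent.MP3145b1.RT
  Pool.Agent.MP3145b1.UM Pool.Agent.MP3145b1.LD Pool.Agent.MP3145b1.AG

/-- **The sharp inequality for all Boolean functions.** -/
theorem sharp_all {N : ℕ} (f : (Fin N → Bool) → ℝ) (hv : ∀ x, f x = 1 ∨ f x = -1) :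
    ∑ S ∈ (univ : Finset (Finset (Fin N))).erase ∅, coeff f S ^ 2 * Real.logb 2 (1 / coeff f S ^ 2) ≤
      42 * (influence f - (1 - coeff f ∅ ^ 2)) *
        Real.logb 2 (M2 f / (influence f - (1 - coeff f ∅ ^ 2))) :=
  sharp rTPar aRc aFk aNd (rATr tCfo) f hv

end Pool.Agent.MP3145b1.GP
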