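import Pool.Agent.Lib.MP_3145b1_co.GP.Asm

/-!
# MP_3145b1_co, project GP: corollaries
-/

set_option autoImplicit false

namespace Pool.Agent.MP3145b1.GP

open Finset Pool.Agent.MP3145b1

/-- the sensitivity of `f` at `x` -/
noncomputable def sens {N : ℕ} (f : (Fin N → Bool) → ℝ) (x : Fin N → Bool) : ℝ :=
  open Classical in ((univ.filter fun i => f (Q.flp i x) ≠ f x).card : ℝ)

/-- the Laplacian of a Boolean function -/
private theorem Cor_lap {N : ℕ} (f : (Fin N → Bool) → ℝ) (hf : ∀ x, f x = 1 ∨ f x = -1)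
    (x : Fin N → Bool) : ∑ i : Fin N, (f x - f (Q.flp i x)) / 2 = f x * sens f x := by
  classical
  unfold sens
  rw [Finset.card_filter]
  push_cast
  rw [Finset.mul_sum]
  refine Finset.sum_congr rfl fun i _ => ?_
  rcases hf x with h1 | h1 <;> rcases hf (Q.flp i x) with h2 | h2 <;> rw [h1, h2] <;> norm_num

private theorem Cor_sgn {N : ℕ} (i : Fin N) (x : Fin N → Bool) (S : Finset (Fin N)) :
    sgn (Q.flp i x) S = (if i ∈ S then -1 else 1) * sgn x S := by
  split_ifs with h
  · unfold Q.flp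
    rw [Q.sgn_upd_in x i (!x i) S h]
    have h1 : sgn x S = (if x i then (-1 : ℝ) else 1) * sgn x (S.erase i) := by
      unfold sgn
      rw [← Finset.mul_prod_erase S _ h]
    rw [h1]
    cases x i <;> simp
  · unfold Q.flp
    rw [Q.sgn_upd_out x i (!x i) S h, one_mul]

private theorem Cor_coeff {N : ℕ} (i : Fin N) (f : (Fin N → Bool) → ℝ) (S : Finset (Fin N)) :
    T.mean (fun x => (f x - f (Q.flp i x)) / 2 * sgn x S) = if i ∈ S then coeff f S else 0 := by
  have h1 : (fun x => (f x - f (Q.flp i x)) / 2 * sgn x S) =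
      fun x => (1 / 2 : ℝ) * ((f x * sgn x S) - (f (Q.flp i x) * sgn x S)) := by
    funext x
    ring
  have h2 : T.mean (fun x => f (Q.flp i x) * sgn x S) =
      (if i ∈ S then -1 else 1) * coeff f S := by
    rw [← Q.mean_flp i (fun x => f (Q.flp i x) * sgn x S), Q.coeff_mean, ← Q.mean_mul]
    congr 1
    funext x
    rw [Q.flp_flp, Cor_sgn]
    ring
  rw [h1, Q.mean_mul, Q.mean_sub, h2, ← Q.coeff_mean]
  split_ifs <;> ring

/-- the coefficients of the Laplacian -/
private theorem Cor_coeffL {N : ℕ} (f : (Fin N → Bool) → ℝ) (hf : ∀ x, f x = 1 ∨ f x = -1)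
    (S : Finset (Fin N)) : coeff (fun x => f x * sens f x) S = S.card * coeff f S := by
  rw [Q.coeff_mean]
  have h1 : (fun x => f x * sens f x * sgn x S) =
      fun x => ∑ i : Fin N, (f x - f (Q.flp i x)) / 2 * sgn x S := by
    funext x
    rw [← Cor_lap f hf x, Finset.sum_mul]
  rw [h1, Q.mean_sum]
  simp only [Cor_coeff]
  rw [← Finset.sum_filter, Finset.sum_const, nsmul_eq_mul]
  have h3 : (univ : Finset (Fin N)).filter (fun i => i ∈ S) = S := by
    ext i
    simp
  rw [h3]

/-- the total influence is the mean sensitivity -/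
theorem inf_sens {N : ℕ} (f : (Fin N → Bool) → ℝ) (hf : ∀ x, f x = 1 ∨ f x = -1) :
    influence f = T.mean (sens f) := by
  have h1 : T.mean (fun x => sens f x) = ∑ i : Fin N, T.mean (fun x => ((f x - f (Q.flp i x)) / 2) ^ 2) := by
    rw [← Q.mean_sum]
    congr 1
    funext x
    classical
    unfold sens
    rw [Finset.card_filter]
    push_cast
    refine Finset.sum_congr rfl fun i _ => ?_
    rcases hf x with h1 | h1 <;> rcases hf (Q.flp i x) with h2 | h2 <;> rw [h1, h2] <;> norm_num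
  have h2 : ∀ i : Fin N, T.mean (fun x => ((f x - f (Q.flp i x)) / 2) ^ 2) =
      ∑ S : Finset (Fin N), if i ∈ S then coeff f S ^ 2 else 0 := by
    intro i
    rw [← Q.parseval]
    refine Finset.sum_congr rfl fun S _ => ?_
    rw [Q.coeff_mean, Cor_coeff]
    split_ifs <;> norm_num
  change influence f = T.mean (fun x => sens f x)
  rw [h1, Finset.sum_congr rfl fun i _ => h2 i, Finset.sum_comm]
  unfold influence
  refine Finset.sum_congr rfl fun S _ => ?_
  rw [← Finset.sum_filter, Finset.sum_const, nsmul_eq_mul]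
  have h3 : (univ : Finset (Fin N)).filter (fun i => i ∈ S) = S := by
    ext i
    simp
  rw [h3]

/-- `M` is the mean of `s (s - 1)` -/
theorem M2_sens {N : ℕ} (f : (Fin N → Bool) → ℝ) (hf : ∀ x, f x = 1 ∨ f x = -1) :
    M2 f = T.mean (fun x => sens f x * (sens f x - 1)) := by
  have h1 : ∑ S : Finset (Fin N), ((S.card : ℝ) * coeff f S) ^ 2 = T.mean (fun x => sens f x ^ 2) := by
    have h3 : ∑ S : Finset (Fin N), ((S.card : ℝ) * coeff f S) ^ 2 =
        ∑ S : Finset (Fin N), coeff (fun x => f x * sens f x) S ^ 2 :=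
      Finset.sum_congr rfl fun S _ => by rw [Cor_coeffL f hf S]
    rw [h3, Q.parseval]
    congr 1
    funext x
    rcases hf x with h | h <;> rw [h] <;> ring
  have h2 : (fun x => sens f x * (sens f x - 1)) = fun x => sens f x ^ 2 - sens f x := by
    funext x; ring
  rw [h2, Q.mean_sub, ← h1, show T.mean (fun x => sens f x) = influence f from (inf_sens f hf).symm]
  unfold M2 influence
  rw [← Finset.sum_sub_distrib]
  exact Finset.sum_congr rfl fun S _ => by ring

/-- functions of degree `k` -/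
theorem M2_deg {N : ℕ} (f : (Fin N → Bool) → ℝ) (hf : ∀ x, f x = 1 ∨ f x = -1) (k : ℕ)
    (hk : ∀ S : Finset (Fin N), k < S.card → coeff f S = 0) :
    M2 f ≤ k * (influence f - (1 - coeff f ∅ ^ 2)) := by
  rw [D_eq f hf]
  unfold M2
  have h4 := Finset.add_sum_erase univ
    (fun S : Finset (Fin N) => (S.card : ℝ) * ((S.card : ℝ) - 1) * coeff f S ^ 2)
    (Finset.mem_univ ∅)
  simp only [Finset.card_empty, Nat.cast_zero, zero_mul, zero_add] at h4
  rw [← h4, Finset.mul_sum]
  refine Finset.sum_le_sum fun S hS => ?_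
  have h1 : 1 ≤ S.card := Finset.card_pos.2 (Finset.nonempty_iff_ne_empty.2 (Finset.ne_of_mem_erase hS))
  have h1' : (1 : ℝ) ≤ S.card := by exact_mod_cast h1
  by_cases h2 : k < S.card
  · rw [hk S h2]; simp
  · push Not at h2
    have h3 : (S.card : ℝ) ≤ k := by exact_mod_cast h2
    have h5 : 0 ≤ ((S.card : ℝ) - 1) * coeff f S ^ 2 := mul_nonneg (by linarith) (sq_nonneg _)
    nlinarith

/-- the sharp inequality for functions of degree `k ≥ 2` -/
theorem sharp_deg {N : ℕ} (f : (Fin N → Bool) → ℝ) (hf : ∀ x, f x = 1 ∨ f x = -1) (k : ℕ) (hk2 : 2 ≤ k)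
    (hk : ∀ S : Finset (Fin N), k < S.card → coeff f S = 0) :
    ∑ S ∈ (univ : Finset (Finset (Fin N))).erase ∅, coeff f S ^ 2 * Real.logb 2 (1 / coeff f S ^ 2) ≤
      42 * Real.logb 2 k * (influence f - (1 - coeff f ∅ ^ 2)) := by
  refine (sharp_all f hf).trans ?_
  obtain ⟨hD0, hMD⟩ := two_D f hf
  have hM := M2_deg f hf k hk
  rcases hD0.eq_or_lt with h0 | h0
  · rw [← h0]; simp
  · set D := influence f - (1 - coeff f ∅ ^ 2) with hD
    have hL2 : 2 ≤ M2 f / D := by rw [le_div_iff₀ h0]; exact hMD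
    have hLk : M2 f / D ≤ k := by rw [div_le_iff₀ h0]; exact hM
    have h1 : Real.logb 2 (M2 f / D) ≤ Real.logb 2 k :=
      Real.logb_le_logb_of_le (by norm_num) (by linarith) hLk
    have h2 : D * Real.logb 2 (M2 f / D) ≤ D * Real.logb 2 k := mul_le_mul_of_nonneg_left h1 hD0
    linarith

/-- a large coefficient of nonempty index -/
theorem sharp_large {N : ℕ} (f : (Fin N → Bool) → ℝ) (hf : ∀ x, f x = 1 ∨ f x = -1)
    (hV : 0 < 1 - coeff f ∅ ^ 2) : ∃ S : Finset (Fin N), S ≠ ∅ ∧ coeff f S ≠ 0 ∧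
    (1 - coeff f ∅ ^ 2) * Real.logb 2 (1 / coeff f S ^ 2) ≤
      42 * (influence f - (1 - coeff f ∅ ^ 2)) *
        Real.logb 2 (M2 f / (influence f - (1 - coeff f ∅ ^ 2))) := by
  classical
  have hone : ∑ S : Finset (Fin N), coeff f S ^ 2 = 1 := by
    rw [Q.parseval]
    have h1 : (fun x => f x ^ 2) = fun _ : Fin N → Bool => (1 : ℝ) := by
      funext x
      rcases hf x with h | h <;> rw [h] <;> norm_num
    rw [h1, Q.mean_const]
  have hVs : ∑ S ∈ (univ : Finset (Finset (Fin N))).erase ∅, coeff f S ^ 2 = 1 - coeff f ∅ ^ 2 := by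
    have h5 := Finset.add_sum_erase univ (fun S : Finset (Fin N) => coeff f S ^ 2) (Finset.mem_univ ∅)
    rw [hone] at h5
    linarith
  set B := 42 * (influence f - (1 - coeff f ∅ ^ 2)) *
        Real.logb 2 (M2 f / (influence f - (1 - coeff f ∅ ^ 2))) with hB
  by_contra hcon
  push Not at hcon
  have h1 : ∀ S ∈ (univ : Finset (Finset (Fin N))).erase ∅,
      B / (1 - coeff f ∅ ^ 2) * coeff f S ^ 2 ≤ coeff f S ^ 2 * Real.logb 2 (1 / coeff f S ^ 2) := by
    intro S hS
    by_cases h0 : coeff f S = 0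
    · rw [h0]; simp
    · have h2 := hcon S (Finset.nonempty_iff_ne_empty.2 (Finset.ne_of_mem_erase hS)) h0
      have h3 : B / (1 - coeff f ∅ ^ 2) ≤ Real.logb 2 (1 / coeff f S ^ 2) := by
        rw [div_le_iff₀ hV]; linarith
      rw [mul_comm]
      exact mul_le_mul_of_nonneg_left h3 (sq_nonneg _)
  have hex : ∃ S ∈ (univ : Finset (Finset (Fin N))).erase ∅, coeff f S ≠ 0 := by
    by_contra hno
    push Not at hno
    have : ∑ S ∈ (univ : Finset (Finset (Fin N))).erase ∅, coeff f S ^ 2 = 0 :=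
      Finset.sum_eq_zero fun S hS => by rw [hno S hS]; norm_num
    rw [hVs] at this
    linarith
  obtain ⟨S0, hS0, hne⟩ := hex
  have h2 : ∑ S ∈ (univ : Finset (Finset (Fin N))).erase ∅, B / (1 - coeff f ∅ ^ 2) * coeff f S ^ 2 <
      ∑ S ∈ (univ : Finset (Finset (Fin N))).erase ∅, coeff f S ^ 2 * Real.logb 2 (1 / coeff f S ^ 2) := by
    refine Finset.sum_lt_sum h1 ⟨S0, hS0, ?_⟩
    have h3 := hcon S0 (Finset.nonempty_iff_ne_empty.2 (Finset.ne_of_mem_erase hS0)) hne
    have h4 : B / (1 - coeff f ∅ ^ 2) < Real.logb 2 (1 / coeff f S0 ^ 2) := by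
      rw [div_lt_iff₀ hV]; linarith
    rw [mul_comm]
    exact mul_lt_mul_of_pos_left h4 (by positivity)
  rw [← Finset.mul_sum, hVs, div_mul_cancel₀ _ hV.ne'] at h2
  exact absurd (sharp_all f hf) (not_le.2 h2)

end Pool.Agent.MP3145b1.GP
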