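import Pool.Agent.Lib.MP_3145b1_co.Q.Main

/-!
# MP_3145b1_co, project GP: the plain inequality with the second moment of the level
-/

set_option autoImplicit false

namespace Pool.Agent.MP3145b1.GP

open Finset Pool.Agent.MP3145b1

/-- `∑ |S| (|S| - 1) f^(S)^2` -/
noncomputable def M2 {N : ℕ} (f : (Fin N → Bool) → ℝ) : ℝ :=
  ∑ S : Finset (Fin N), (S.card : ℝ) * ((S.card : ℝ) - 1) * coeff f S ^ 2

theorem M2_nonneg {N : ℕ} (f : (Fin N → Bool) → ℝ) : 0 ≤ M2 f := by
  unfold M2
  refine Finset.sum_nonneg fun S _ => mul_nonneg ?_ (sq_nonneg _)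
  rcases Nat.eq_zero_or_pos S.card with h | h
  · rw [h]; simp
  · have h1 : (1 : ℝ) ≤ S.card := by exact_mod_cast h
    exact mul_nonneg (by linarith) (by linarith)

private theorem Pln_sgn {N : ℕ} (i : Fin N) (x : Fin N → Bool) (S : Finset (Fin N)) :
    sgn (Q.flp i x) S = (if i ∈ S then -1 else 1) * sgn x S := by
  split_ifs with h
  · unfold Q.flp
    rw [Q.sgn_upd_in x i (!x i) S h]
    have h1 : sgn x S = (if x i then (-1 : ℝ) else 1) * sgn x (S.erase i) := by
      unfold sgn
      rw [← Finset.mul_prod_erase S _ h]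
    rw [h1]
    cases x i <;> simp
  · unfold Q.flp
    rw [Q.sgn_upd_out x i (!x i) S h, one_mul]

private theorem Pln_coeff {N : ℕ} (i : Fin N) (f : (Fin N → Bool) → ℝ) (S : Finset (Fin N)) :
    coeff (fun x => (f x - f (Q.flp i x)) / 2) S = if i ∈ S then coeff f S else 0 := by
  rw [Q.coeff_mean]
  have h1 : (fun x => (f x - f (Q.flp i x)) / 2 * sgn x S) =
      fun x => (1 / 2 : ℝ) * ((f x * sgn x S) - (f (Q.flp i x) * sgn x S)) := by
    funext x
    ring
  have h2 : T.mean (fun x => f (Q.flp i x) * sgn x S) =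
      (if i ∈ S then -1 else 1) * coeff f S := by
    rw [← Q.mean_flp i (fun x => f (Q.flp i x) * sgn x S), Q.coeff_mean, ← Q.mean_mul]
    congr 1
    funext x
    rw [Q.flp_flp, Pln_sgn]
    ring
  rw [h1, Q.mean_mul, Q.mean_sub, h2, ← Q.coeff_mean]
  split_ifs <;> ring

open Classical in
private theorem Pln_pair {N : ℕ} (f : (Fin N → Bool) → ℝ) (hf : ∀ x, f x = 1 ∨ f x = -1)
    (i v : Fin N) :
    T.mean (fun x => if f (Q.flp i x) ≠ f x ∧ f (Q.flp i (Q.flp v x)) = f (Q.flp v x)
        then (1 : ℝ) else 0) ≤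
      2 * ∑ S : Finset (Fin N), (if v ∈ S then (if i ∈ S then coeff f S ^ 2 else 0) else 0) := by
  set g : (Fin N → Bool) → ℝ := fun x => (f x - f (Q.flp i x)) / 2 with hg
  set h : (Fin N → Bool) → ℝ := fun x => (g x - g (Q.flp v x)) / 2 with hh
  set E : (Fin N → Bool) → ℝ := fun x =>
    if f (Q.flp i x) ≠ f x ∧ f (Q.flp i (Q.flp v x)) = f (Q.flp v x) then (1 : ℝ) else 0 with hE
  have hpt : ∀ x, E x + E (Q.flp v x) ≤ 4 * h x ^ 2 := by
    intro x
    have e1 : E (Q.flp v x) = if f (Q.flp i (Q.flp v x)) ≠ f (Q.flp v x) ∧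
        f (Q.flp i x) = f x then (1 : ℝ) else 0 := by
      rw [hE]
      simp only [Q.flp_flp]
    have e2 : h x = ((f x - f (Q.flp i x)) / 2 -
        (f (Q.flp v x) - f (Q.flp i (Q.flp v x))) / 2) / 2 := rfl
    have e3 : E x = if f (Q.flp i x) ≠ f x ∧ f (Q.flp i (Q.flp v x)) = f (Q.flp v x)
        then (1 : ℝ) else 0 := rfl
    rw [e1, e2, e3]
    rcases hf x with h1 | h1 <;> rcases hf (Q.flp i x) with h2 | h2 <;>
      rcases hf (Q.flp v x) with h3 | h3 <;>
      rcases hf (Q.flp i (Q.flp v x)) with h4 | h4 <;>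
      rw [h1, h2, h3, h4] <;> norm_num
  have hmean : T.mean E + T.mean E ≤ 4 * T.mean (fun x => h x ^ 2) := by
    have h1 := Q.mean_mono hpt
    rw [Q.mean_add, Q.mean_flp, Q.mean_mul] at h1
    exact h1
  have hpar : T.mean (fun x => h x ^ 2) =
      ∑ S : Finset (Fin N), (if v ∈ S then (if i ∈ S then coeff f S ^ 2 else 0) else 0) := by
    rw [← Q.parseval]
    apply Finset.sum_congr rfl
    intro S _
    rw [hh, Pln_coeff v g S, hg, Pln_coeff i f S]
    split_ifs
    · rfl
    · norm_num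
    · norm_num
  rw [← hpar]
  linarith

private theorem Pln_kill {N : ℕ} (f : (Fin N → Bool) → ℝ) (hf : ∀ x, f x = 1 ∨ f x = -1)
    (i : Fin N) :
    Q.Kill f univ i ≤ 2 * ∑ S : Finset (Fin N),
      (if i ∈ S then ((S.card : ℝ) - 1) * coeff f S ^ 2 else 0) := by
  classical
  have h0 : Q.Kill f univ i = ∑ v ∈ (univ : Finset (Fin N)).erase i,
      T.mean (fun x => if f (Q.flp i x) ≠ f x ∧ f (Q.flp i (Q.flp v x)) = f (Q.flp v x)
        then (1 : ℝ) else 0) := by
    unfold Q.Kill
    have h1 : ∀ x, ((((univ : Finset (Fin N)).filter fun v => v ≠ i ∧ f (Q.flp i x) ≠ f x ∧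
        f (Q.flp i (Q.flp v x)) = f (Q.flp v x)).card : ℕ) : ℝ) =
        ∑ v ∈ (univ : Finset (Fin N)).erase i,
          if f (Q.flp i x) ≠ f x ∧ f (Q.flp i (Q.flp v x)) = f (Q.flp v x)
          then (1 : ℝ) else 0 := by
      intro x
      have h2 : ((univ : Finset (Fin N)).filter fun v => v ≠ i ∧ f (Q.flp i x) ≠ f x ∧
          f (Q.flp i (Q.flp v x)) = f (Q.flp v x)) =
          ((univ : Finset (Fin N)).erase i).filter fun v => f (Q.flp i x) ≠ f x ∧
            f (Q.flp i (Q.flp v x)) = f (Q.flp v x) := by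
        ext v
        simp only [Finset.mem_filter, Finset.mem_erase]
        tauto
      rw [h2, Finset.card_filter]
      push_cast
      rfl
    simp only [h1]
    rw [Q.mean_sum]
  rw [h0]
  have h1 : ∑ v ∈ (univ : Finset (Fin N)).erase i,
      T.mean (fun x => if f (Q.flp i x) ≠ f x ∧ f (Q.flp i (Q.flp v x)) = f (Q.flp v x)
        then (1 : ℝ) else 0) ≤
      ∑ v ∈ (univ : Finset (Fin N)).erase i,
        2 * ∑ S : Finset (Fin N), (if v ∈ S then (if i ∈ S then coeff f S ^ 2 else 0) else 0) :=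
    Finset.sum_le_sum fun v _ => Pln_pair f hf i v
  refine h1.trans (le_of_eq ?_)
  rw [← Finset.mul_sum, Finset.sum_comm]
  congr 1
  apply Finset.sum_congr rfl
  intro S _
  rw [← Finset.sum_filter, Finset.sum_const, nsmul_eq_mul]
  have h2 : ((univ : Finset (Fin N)).erase i).filter (fun v => v ∈ S) = S.erase i := by
    ext v
    simp only [Finset.mem_filter, Finset.mem_erase, Finset.mem_univ, and_true]
  rw [h2]
  split_ifs with h3
  · rw [Finset.card_erase_of_mem h3, Nat.cast_sub (Finset.card_pos.mpr ⟨i, h3⟩), Nat.cast_one]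
  · rw [mul_zero]

/-- the mean number of pairs with an odd square -/
theorem kill_sum {N : ℕ} (f : (Fin N → Bool) → ℝ) (hf : ∀ x, f x = 1 ∨ f x = -1) :
    ∑ i, Q.Kill f univ i ≤ 2 * M2 f := by
  classical
  have h1 : ∑ i, Q.Kill f univ i ≤ ∑ i : Fin N, 2 * ∑ S : Finset (Fin N),
      (if i ∈ S then ((S.card : ℝ) - 1) * coeff f S ^ 2 else 0) :=
    Finset.sum_le_sum fun i _ => Pln_kill f hf i
  refine h1.trans (le_of_eq ?_)
  rw [← Finset.mul_sum, Finset.sum_comm]
  unfold M2
  congr 1
  apply Finset.sum_congr rfl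
  intro S _
  rw [← Finset.sum_filter, Finset.sum_const, nsmul_eq_mul]
  have h3 : (univ : Finset (Fin N)).filter (fun i => i ∈ S) = S := by
    ext i
    simp
  rw [h3]
  ring

private theorem Pln_inf {N : ℕ} (f : (Fin N → Bool) → ℝ) : 0 ≤ influence f := by
  unfold influence
  exact Finset.sum_nonneg fun S _ => mul_nonneg (Nat.cast_nonneg _) (sq_nonneg _)

/-- the plain inequality -/
theorem plain {N : ℕ} (f : (Fin N → Bool) → ℝ) (hf : ∀ x, f x = 1 ∨ f x = -1) :
    specEntropy f ≤ 2 / Real.log 2 * (1 + Real.logb 2 (max 1 (2 * M2 f / influence f))) *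
      influence f := by
  have hI := Pln_inf f
  refine (Q.global f hf).trans ?_
  have hl : 0 < Real.log 2 := Real.log_pos (by norm_num)
  refine mul_le_mul_of_nonneg_right (mul_le_mul_of_nonneg_left ?_ (by positivity)) hI
  have h1 : Q.meanKill f ≤ 2 * M2 f / influence f := by
    unfold Q.meanKill
    exact div_le_div_of_nonneg_right (kill_sum f hf) hI
  have h2 : Real.logb 2 (max 1 (Q.meanKill f)) ≤ Real.logb 2 (max 1 (2 * M2 f / influence f)) :=
    Real.logb_le_logb_of_le (by norm_num) (lt_of_lt_of_le one_pos (le_max_left _ _))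
      (max_le_max le_rfl h1)
  linarith

private theorem Pln_log (x L : ℝ) (hx : 0 ≤ x) (hL : 1 ≤ L) :
    Real.logb 2 (max 1 x) ≤ Real.logb 2 L + x / (L * Real.log 2) := by
  have hl : 0 < Real.log 2 := Real.log_pos (by norm_num)
  have hL0 : 0 < L := by linarith
  have h1 : max 1 x ≤ L * max 1 (x / L) := by
    refine max_le ?_ ?_
    · calc (1 : ℝ) ≤ L := hL
        _ = L * 1 := (mul_one L).symm
        _ ≤ L * max 1 (x / L) := mul_le_mul_of_nonneg_left (le_max_left _ _) hL0.le
    · calc x = L * (x / L) := by field_simp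
        _ ≤ L * max 1 (x / L) := mul_le_mul_of_nonneg_left (le_max_right _ _) hL0.le
  have h0 : 0 < max 1 (x / L) := lt_of_lt_of_le one_pos (le_max_left _ _)
  have h2 : Real.log (max 1 x) ≤ Real.log L + Real.log (max 1 (x / L)) := by
    rw [← Real.log_mul hL0.ne' h0.ne']
    exact Real.log_le_log (lt_of_lt_of_le one_pos (le_max_left _ _)) h1
  have h3 : Real.log (max 1 (x / L)) ≤ x / L := by
    have h4 := Real.log_le_sub_one_of_pos h0
    have h5 : max 1 (x / L) ≤ x / L + 1 := max_le (by linarith [div_nonneg hx hL0.le]) (by linarith)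
    linarith
  have h6 : x / (L * Real.log 2) = x / L / Real.log 2 := by rw [div_div]
  rw [h6]
  unfold Real.logb
  rw [← add_div]
  exact div_le_div_of_nonneg_right (by linarith) hl.le

/-- the plain inequality, linear in the influence and in the second moment -/
theorem plain_lin {N : ℕ} (f : (Fin N → Bool) → ℝ) (hf : ∀ x, f x = 1 ∨ f x = -1) (L : ℝ) (hL : 1 ≤ L) :
    specEntropy f * Real.log 2 ≤ 2 * (1 + Real.logb 2 L) * influence f +
      4 / (L * Real.log 2) * M2 f := by
  have hl : 0 < Real.log 2 := Real.log_pos (by norm_num)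
  have hL0 : 0 < L := by linarith
  have hI := Pln_inf f
  have hM := M2_nonneg f
  have h1 := plain f hf
  have h2 : specEntropy f * Real.log 2 ≤
      2 * (1 + Real.logb 2 (max 1 (2 * M2 f / influence f))) * influence f := by
    have h3 := mul_le_mul_of_nonneg_right h1 hl.le
    refine h3.trans (le_of_eq ?_)
    field_simp
  refine h2.trans ?_
  rcases hI.eq_or_lt with h0 | h0
  · rw [← h0, mul_zero, mul_zero, zero_add]
    positivity
  · have h3 := Pln_log (2 * M2 f / influence f) L (by positivity) hL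
    have h4 : 2 * (1 + Real.logb 2 (max 1 (2 * M2 f / influence f))) * influence f ≤
        2 * (1 + (Real.logb 2 L + 2 * M2 f / influence f / (L * Real.log 2))) * influence f := by
      refine mul_le_mul_of_nonneg_right ?_ hI
      linarith
    refine h4.trans (le_of_eq ?_)
    field_simp
    ring

end Pool.Agent.MP3145b1.GP
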