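import Pool.Agent.Lib.MP_3145b1_co.GP.Hr
import Pool.Agent.Lib.MP_3145b1_co.GP.Pln

/-!
# MP_3145b1_co, project GP: the sharp inequality for all Boolean functions
-/

set_option autoImplicit false

namespace Pool.Agent.MP3145b1.GP

open Finset Pool.Agent.MP3145b1 Pool.Agent.MP3145b1.RC Pool.Agent.MP3145b1.RD Pool.Agent.MP3145b1.RT
  Pool.Agent.MP3145b1.UM Pool.Agent.MP3145b1.LD Pool.Agent.MP3145b1.AG

private theorem Fin_wt (T : Finset ℕ) : wt hf T = 1 := by
  unfold wt hf
  apply Finset.prod_eq_one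
  intro i _
  norm_num

private theorem Fin_pow {N : ℕ} (A : Finset (Fin N)) (G : Finset ℕ → ℝ) :
    ∑ T ∈ (A.map Fin.valEmbedding).powerset, G T = ∑ S ∈ A.powerset, G (S.map Fin.valEmbedding) := by
  symm
  apply Finset.sum_bij (fun S _ => S.map Fin.valEmbedding)
  · intro S hS
    rw [Finset.mem_powerset] at hS ⊢
    exact Finset.map_subset_map.2 hS
  · intro S _ S' _ h
    exact Finset.map_injective _ h
  · intro T hT
    rw [Finset.mem_powerset] at hT
    obtain ⟨S, hS, hST⟩ := Finset.subset_map_iff.1 hT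
    exact ⟨S, Finset.mem_powerset.2 hS, hST.symm⟩
  · intro S _
    rfl

private theorem Fin_pow' {N : ℕ} (A : Finset (Fin N)) (G : Finset ℕ → ℝ) :
    ∑ T ∈ (A.map Fin.valEmbedding).powerset.erase ∅, G T =
      ∑ S ∈ A.powerset.erase ∅, G (S.map Fin.valEmbedding) := by
  have h1 := Finset.add_sum_erase (A.map Fin.valEmbedding).powerset G (Finset.empty_mem_powerset _)
  have h2 := Finset.add_sum_erase A.powerset (fun S => G (S.map Fin.valEmbedding))
    (Finset.empty_mem_powerset _)
  simp only [Finset.map_empty] at h2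
  rw [Fin_pow] at h1
  linarith

private theorem Fin_one {N : ℕ} (g : (Fin N → Bool) → ℝ) (hg : ∀ x, g x = 1 ∨ g x = -1) :
    ∑ S : Finset (Fin N), coeff g S ^ 2 = 1 := by
  rw [Q.parseval]
  have h1 : (fun x => g x ^ 2) = fun _ : Fin N → Bool => (1 : ℝ) := by
    funext x
    rcases hg x with h | h <;> rw [h] <;> norm_num
  rw [h1, Q.mean_const]

private theorem Fin_hh (t : ℝ) : t * Real.logb 2 (1 / t) * Real.log 2 = hh t := by
  have hl : 0 < Real.log 2 := Real.log_pos (by norm_num)
  unfold Real.logb hh Real.negMulLog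
  rw [one_div, Real.log_inv]
  field_simp

/-- the linear inequality for a restriction -/
private theorem Fin_res (h2 : S_ATr) {N : ℕ} (f : (Fin N → Bool) → ℝ) (L : ℝ) (hL : 1 ≤ L)
    (hv : ∀ x, f x = 1 ∨ f x = -1) (A : Finset (Fin N)) (y : Fin N → Bool) :
    Hs tw hf (A.map Fin.valEmbedding) (fun t => f (xb N t))
        (∑ i ∈ univ.filter (fun i => i ∉ A ∧ y i = true), tw i.val) ≤
      2 * (1 + Real.logb 2 L) * Ti tw hf (A.map Fin.valEmbedding) (fun t => f (xb N t))
        (∑ i ∈ univ.filter (fun i => i ∉ A ∧ y i = true), tw i.val) +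
      4 / (L * Real.log 2) * Mm tw hf (A.map Fin.valEmbedding) (fun t => f (xb N t))
        (∑ i ∈ univ.filter (fun i => i ∉ A ∧ y i = true), tw i.val) := by
  obtain ⟨ha, hb⟩ := h2 N f A y
  have hgv : ∀ x, Q.blk A y f x = 1 ∨ Q.blk A y f x = -1 := fun x => hv _
  have hH : Hs tw hf (A.map Fin.valEmbedding) (fun t => f (xb N t))
        (∑ i ∈ univ.filter (fun i => i ∉ A ∧ y i = true), tw i.val) =
      ∑ S ∈ A.powerset.erase ∅, hh (coeff (Q.blk A y f) S ^ 2) := by
    unfold Hs
    rw [Fin_pow']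
    apply Finset.sum_congr rfl
    intro S hS
    rw [Finset.mem_erase, Finset.mem_powerset] at hS
    rw [Fin_wt, one_mul, ha S hS.2]
  have hT : Ti tw hf (A.map Fin.valEmbedding) (fun t => f (xb N t))
        (∑ i ∈ univ.filter (fun i => i ∉ A ∧ y i = true), tw i.val) =
      influence (Q.blk A y f) := by
    unfold Ti influence
    rw [Fin_pow]
    have h3 : ∑ S ∈ A.powerset, (S.card : ℝ) * coeff (Q.blk A y f) S ^ 2 =
        ∑ S : Finset (Fin N), (S.card : ℝ) * coeff (Q.blk A y f) S ^ 2 := by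
      apply Finset.sum_subset (Finset.subset_univ _)
      intro S _ hS
      rw [Finset.mem_powerset] at hS
      rw [hb S hS]
      ring
    rw [← h3]
    apply Finset.sum_congr rfl
    intro S hS
    rw [Finset.mem_powerset] at hS
    rw [Fin_wt, one_mul, ha S hS, Finset.card_map]
  have hM : Mm tw hf (A.map Fin.valEmbedding) (fun t => f (xb N t))
        (∑ i ∈ univ.filter (fun i => i ∉ A ∧ y i = true), tw i.val) =
      M2 (Q.blk A y f) := by
    unfold Mm M2
    rw [Fin_pow]
    have h3 : ∑ S ∈ A.powerset, (S.card : ℝ) * ((S.card : ℝ) - 1) * coeff (Q.blk A y f) S ^ 2 =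
        ∑ S : Finset (Fin N), (S.card : ℝ) * ((S.card : ℝ) - 1) * coeff (Q.blk A y f) S ^ 2 := by
      apply Finset.sum_subset (Finset.subset_univ _)
      intro S _ hS
      rw [Finset.mem_powerset] at hS
      rw [hb S hS]
      ring
    rw [← h3]
    apply Finset.sum_congr rfl
    intro S hS
    rw [Finset.mem_powerset] at hS
    rw [Fin_wt, one_mul, ha S hS, Finset.card_map]
  rw [hH, hT, hM]
  refine le_trans ?_ (plain_lin (Q.blk A y f) hgv L hL)
  have hle : ∀ S : Finset (Fin N), coeff (Q.blk A y f) S ^ 2 ≤ 1 := by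
    intro S
    rw [← Fin_one _ hgv]
    exact Finset.single_le_sum (f := fun S => coeff (Q.blk A y f) S ^ 2)
      (fun S _ => sq_nonneg _) (Finset.mem_univ S)
  unfold specEntropy
  rw [Finset.sum_mul]
  simp only [Fin_hh]
  apply Finset.sum_le_sum_of_subset_of_nonneg (Finset.subset_univ _)
  intro S _ _
  exact Real.negMulLog_nonneg (sq_nonneg _) (hle S)

private theorem Fin_blk {N : ℕ} (f : (Fin N → Bool) → ℝ) (y : Fin N → Bool) :
    Q.blk univ y f = f := by
  funext x
  unfold Q.blk
  simp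

/-- the linear inequality -/
theorem lin (g1 : S_TPar) (g2 : S_ARc) (g3 : S_AFk) (g4 : S_ANd) (h2 : S_ATr) {N : ℕ}
    (f : (Fin N → Bool) → ℝ) (hv : ∀ x, f x = 1 ∨ f x = -1) (L : ℝ) (hL : 1 ≤ L) :
    ∑ S ∈ (univ : Finset (Finset (Fin N))).erase ∅, hh (coeff f S ^ 2) ≤
      max 23 (8 * (1 + Real.logb 2 L)) * (influence f - (1 - coeff f ∅ ^ 2)) +
      4 / (L * Real.log 2) * M2 f := by
  have hl : 0 < Real.log 2 := Real.log_pos (by norm_num)
  have hL0 : 0 < L := by linarith
  have hlog : 0 ≤ Real.logb 2 L := Real.logb_nonneg (by norm_num) hL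
  have hmapu : (univ : Finset (Fin N)).map Fin.valEmbedding = range N := by
    ext i
    simp only [Finset.mem_map, Finset.mem_univ, true_and, Finset.mem_range, Fin.valEmbedding_apply]
    exact ⟨fun ⟨a, ha⟩ => ha ▸ a.2, fun h => ⟨⟨i, h⟩, rfl⟩⟩
  have hmain := hr g1 g2 g3 g4 tw hf (fun t => f (xb N t)) (2 * (1 + Real.logb 2 L))
    (max 23 (8 * (1 + Real.logb 2 L))) (4 / (L * Real.log 2))
    (fun i => by unfold hf; norm_num) (fun y => hv _) (by positivity) (le_max_left _ _)
    (le_trans (by linarith) (le_max_right _ _)) (by positivity) (range N) 0 (by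
      intro J' U hJ hU
      have hA : (univ.filter (fun i : Fin N => i.val ∈ J')).map Fin.valEmbedding = J' := by
        ext i
        simp only [Finset.mem_map, Finset.mem_filter, Finset.mem_univ, true_and,
          Fin.valEmbedding_apply]
        constructor
        · rintro ⟨a, ha, rfl⟩
          exact ha
        · intro hi
          exact ⟨⟨i, Finset.mem_range.1 (hJ hi)⟩, hi, rfl⟩
      have hs : ∑ i ∈ univ.filter (fun i : Fin N => i ∉ univ.filter (fun i : Fin N => i.val ∈ J') ∧
          decide (i.val ∈ U) = true), tw i.val = 0 + ∑ i ∈ U, tw i := by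
        rw [zero_add]
        apply Finset.sum_bij (fun (i : Fin N) _ => i.val)
        · intro i hi
          rw [Finset.mem_filter] at hi
          exact of_decide_eq_true hi.2.2
        · intro i _ j _ h
          exact Fin.ext h
        · intro i hi
          have h3 := hU hi
          rw [Finset.mem_sdiff, Finset.mem_range] at h3
          refine ⟨⟨i, h3.1⟩, ?_, rfl⟩
          rw [Finset.mem_filter, Finset.mem_filter]
          exact ⟨Finset.mem_univ _, fun h => h3.2 h.2, decide_eq_true hi⟩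
        · intro i _
          rfl
      have h3 := Fin_res h2 f L hL hv (univ.filter (fun i : Fin N => i.val ∈ J'))
        (fun i => decide (i.val ∈ U))
      rw [hA, hs] at h3
      exact h3)
  obtain ⟨ha, -⟩ := h2 N f univ (fun _ => false)
  have hz : ∑ i ∈ univ.filter (fun i : Fin N => i ∉ (univ : Finset (Fin N)) ∧ false = true),
      tw i.val = 0 := by
    apply Finset.sum_eq_zero
    intro i hi
    rw [Finset.mem_filter] at hi
    exact absurd (Finset.mem_univ i) hi.2.1
  rw [Fin_blk, hmapu, hz] at ha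
  have hco : ∀ S : Finset (Fin N), Co tw hf (range N) (S.map Fin.valEmbedding) (fun t => f (xb N t)) 0 =
      coeff f S := fun S => (ha S (Finset.subset_univ S)).symm
  have hH : Hs tw hf (range N) (fun t => f (xb N t)) 0 =
      ∑ S ∈ (univ : Finset (Finset (Fin N))).erase ∅, hh (coeff f S ^ 2) := by
    unfold Hs
    rw [← hmapu, Fin_pow', hmapu, Finset.powerset_univ]
    apply Finset.sum_congr rfl
    intro S _
    rw [Fin_wt, one_mul, hco]
  have hM : Mm tw hf (range N) (fun t => f (xb N t)) 0 = M2 f := by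
    unfold Mm M2
    rw [← hmapu, Fin_pow, hmapu, Finset.powerset_univ]
    apply Finset.sum_congr rfl
    intro S _
    rw [Fin_wt, one_mul, hco, Finset.card_map]
  have hD : Dd tw hf (range N) (fun t => f (xb N t)) 0 = influence f - (1 - coeff f ∅ ^ 2) := by
    unfold Dd influence
    rw [← hmapu, Fin_pow', hmapu, Finset.powerset_univ]
    have h3 : ∑ S ∈ (univ : Finset (Finset (Fin N))).erase ∅,
        ((S.map Fin.valEmbedding).card - 1 : ℝ) * (wt hf (S.map Fin.valEmbedding) *
          Co tw hf (range N) (S.map Fin.valEmbedding) (fun t => f (xb N t)) 0 ^ 2) =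
        ∑ S ∈ (univ : Finset (Finset (Fin N))).erase ∅,
          ((S.card : ℝ) * coeff f S ^ 2 - coeff f S ^ 2) := by
      apply Finset.sum_congr rfl
      intro S _
      rw [Fin_wt, one_mul, hco, Finset.card_map]
      ring
    rw [h3, Finset.sum_sub_distrib]
    have h4 := Finset.add_sum_erase univ (fun S : Finset (Fin N) => (S.card : ℝ) * coeff f S ^ 2)
      (Finset.mem_univ ∅)
    have h5 := Finset.add_sum_erase univ (fun S : Finset (Fin N) => coeff f S ^ 2)
      (Finset.mem_univ ∅)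
    simp only [Finset.card_empty, Nat.cast_zero, zero_mul, zero_add] at h4
    rw [Fin_one f hv] at h5
    rw [h4]
    linarith
  rw [← hH, ← hD, ← hM]
  exact hmain

/-- `D = ∑_{S ≠ ∅} (|S| - 1) f^(S)^2` -/
theorem D_eq {N : ℕ} (f : (Fin N → Bool) → ℝ) (hv : ∀ x, f x = 1 ∨ f x = -1) :
    influence f - (1 - coeff f ∅ ^ 2) =
      ∑ S ∈ (univ : Finset (Finset (Fin N))).erase ∅, ((S.card : ℝ) - 1) * coeff f S ^ 2 := by
  unfold influence
  have h4 := Finset.add_sum_erase univ (fun S : Finset (Fin N) => (S.card : ℝ) * coeff f S ^ 2)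
    (Finset.mem_univ ∅)
  have h5 := Finset.add_sum_erase univ (fun S : Finset (Fin N) => coeff f S ^ 2)
    (Finset.mem_univ ∅)
  simp only [Finset.card_empty, Nat.cast_zero, zero_mul, zero_add] at h4
  rw [Fin_one f hv] at h5
  have h6 : ∑ S ∈ (univ : Finset (Finset (Fin N))).erase ∅, ((S.card : ℝ) - 1) * coeff f S ^ 2 =
      ∑ S ∈ (univ : Finset (Finset (Fin N))).erase ∅, (S.card : ℝ) * coeff f S ^ 2 -
        ∑ S ∈ (univ : Finset (Finset (Fin N))).erase ∅, coeff f S ^ 2 := by
    rw [← Finset.sum_sub_distrib]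
    exact Finset.sum_congr rfl fun S _ => by ring
  rw [h6, h4]
  linarith

/-- `D ≥ 0` and `M ≥ 2 D` -/
theorem two_D {N : ℕ} (f : (Fin N → Bool) → ℝ) (hv : ∀ x, f x = 1 ∨ f x = -1) :
    0 ≤ influence f - (1 - coeff f ∅ ^ 2) ∧ 2 * (influence f - (1 - coeff f ∅ ^ 2)) ≤ M2 f := by
  have hcard : ∀ S ∈ (univ : Finset (Finset (Fin N))).erase ∅, 1 ≤ S.card := fun S hS =>
    Finset.card_pos.2 (Finset.nonempty_iff_ne_empty.2 (Finset.ne_of_mem_erase hS))
  rw [D_eq f hv]
  constructor
  · refine Finset.sum_nonneg fun S hS => mul_nonneg ?_ (sq_nonneg _)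
    have h1 : (1 : ℝ) ≤ S.card := by exact_mod_cast hcard S hS
    linarith
  · unfold M2
    have h4 := Finset.add_sum_erase univ
      (fun S : Finset (Fin N) => (S.card : ℝ) * ((S.card : ℝ) - 1) * coeff f S ^ 2)
      (Finset.mem_univ ∅)
    simp only [Finset.card_empty, Nat.cast_zero, zero_mul, zero_add] at h4
    rw [← h4, Finset.mul_sum]
    refine Finset.sum_le_sum fun S hS => ?_
    have h0 : 0 ≤ coeff f S ^ 2 := sq_nonneg _
    rcases Nat.lt_or_ge S.card 2 with h2 | h2
    · have h1 : S.card = 1 := by have := hcard S hS; omega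
      rw [h1]
      simp
    · have h3 : (2 : ℝ) ≤ S.card := by exact_mod_cast h2
      have h5 : 0 ≤ ((S.card : ℝ) - 1) * coeff f S ^ 2 := mul_nonneg (by linarith) h0
      nlinarith

/-- if `D = 0` then `M = 0` -/
theorem M_zero {N : ℕ} (f : (Fin N → Bool) → ℝ) (hv : ∀ x, f x = 1 ∨ f x = -1)
    (h : influence f - (1 - coeff f ∅ ^ 2) = 0) : M2 f = 0 := by
  rw [D_eq f hv] at h
  have hcard : ∀ S ∈ (univ : Finset (Finset (Fin N))).erase ∅, 1 ≤ S.card := fun S hS =>
    Finset.card_pos.2 (Finset.nonempty_iff_ne_empty.2 (Finset.ne_of_mem_erase hS))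
  have h1 : ∀ S ∈ (univ : Finset (Finset (Fin N))).erase ∅, ((S.card : ℝ) - 1) * coeff f S ^ 2 = 0 := by
    refine (Finset.sum_eq_zero_iff_of_nonneg fun S hS => mul_nonneg ?_ (sq_nonneg _)).1 h
    have h2 : (1 : ℝ) ≤ S.card := by exact_mod_cast hcard S hS
    linarith
  unfold M2
  refine Finset.sum_eq_zero fun S _ => ?_
  by_cases hS : S = ∅
  · rw [hS]; simp
  · have h2 := h1 S (Finset.mem_erase.2 ⟨hS, Finset.mem_univ _⟩)
    rw [mul_assoc, h2, mul_zero]

/-- **The sharp inequality for all Boolean functions.** -/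
theorem sharp (g1 : S_TPar) (g2 : S_ARc) (g3 : S_AFk) (g4 : S_ANd) (h2 : S_ATr) {N : ℕ}
    (f : (Fin N → Bool) → ℝ) (hv : ∀ x, f x = 1 ∨ f x = -1) :
    ∑ S ∈ (univ : Finset (Finset (Fin N))).erase ∅, coeff f S ^ 2 * Real.logb 2 (1 / coeff f S ^ 2) ≤
      42 * (influence f - (1 - coeff f ∅ ^ 2)) *
        Real.logb 2 (M2 f / (influence f - (1 - coeff f ∅ ^ 2))) := by
  have hl : 0 < Real.log 2 := Real.log_pos (by norm_num)
  have hl1 : 0.6931471803 < Real.log 2 := Real.log_two_gt_d9
  obtain ⟨hD0, hMD⟩ := two_D f hv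
  have hsum : (∑ S ∈ (univ : Finset (Finset (Fin N))).erase ∅,
      coeff f S ^ 2 * Real.logb 2 (1 / coeff f S ^ 2)) * Real.log 2 =
      ∑ S ∈ (univ : Finset (Finset (Fin N))).erase ∅, hh (coeff f S ^ 2) := by
    rw [Finset.sum_mul]
    exact Finset.sum_congr rfl fun S _ => Fin_hh _
  rcases hD0.eq_or_lt with h0 | h0
  · have h3 := lin g1 g2 g3 g4 h2 f hv 1 le_rfl
    rw [M_zero f hv h0.symm, ← h0, mul_zero, mul_zero, zero_add, ← hsum] at h3
    rw [← h0, mul_zero, zero_mul]
    by_contra hcon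
    push Not at hcon
    exact absurd h3 (not_le.2 (mul_pos hcon hl))
  · set D := influence f - (1 - coeff f ∅ ^ 2) with hD
    set L := M2 f / D with hL
    have hL2 : 2 ≤ L := by rw [hL, le_div_iff₀ h0]; exact hMD
    have h3 := lin g1 g2 g3 g4 h2 f hv L (by linarith)
    have hlog1 : 1 ≤ Real.logb 2 L := by
      have h5 : Real.logb 2 2 ≤ Real.logb 2 L :=
        Real.logb_le_logb_of_le (by norm_num) (by norm_num) hL2
      rwa [Real.logb_self_eq_one (by norm_num)] at h5
    have hM : M2 f = L * D := by rw [hL]; field_simp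
    have h4 : 4 / (L * Real.log 2) * M2 f = 4 / Real.log 2 * D := by
      rw [hM]
      have : L ≠ 0 := by linarith
      field_simp
    have hmax : max 23 (8 * (1 + Real.logb 2 L)) ≤ 23 * Real.logb 2 L :=
      max_le (by linarith) (by linarith)
    have h6 : max 23 (8 * (1 + Real.logb 2 L)) * D ≤ 23 * Real.logb 2 L * D :=
      mul_le_mul_of_nonneg_right hmax hD0
    have h7 : 4 / Real.log 2 ≤ 5.8 := by
      rw [div_le_iff₀ hl]; linarith
    have h8 : 4 / Real.log 2 * D ≤ 5.8 * Real.logb 2 L * D := by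
      refine mul_le_mul_of_nonneg_right ?_ hD0
      linarith
    rw [h4, ← hsum] at h3
    have h9 : (∑ S ∈ (univ : Finset (Finset (Fin N))).erase ∅,
      coeff f S ^ 2 * Real.logb 2 (1 / coeff f S ^ 2)) * Real.log 2 ≤
        42 * D * Real.logb 2 L * Real.log 2 := by
      have h10 : 0 ≤ D * Real.logb 2 L := mul_nonneg hD0 (by linarith)
      have h11 : 28.8 * (D * Real.logb 2 L) ≤ 42 * Real.log 2 * (D * Real.logb 2 L) :=
        mul_le_mul_of_nonneg_right (by linarith) h10
      linarith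
    exact le_of_mul_le_mul_right h9 hl

end Pool.Agent.MP3145b1.GP
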