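import Pool.Agent.Lib.MP_3145b1_co.AG.Spec2

/-!
# MP_3145b1_co, project GP: from the plain to the sharp inequality, with a second moment term
-/

set_option autoImplicit false

namespace Pool.Agent.MP3145b1.GP

open Finset Pool.Agent.MP3145b1 Pool.Agent.MP3145b1.RC Pool.Agent.MP3145b1.RD Pool.Agent.MP3145b1.RT
  Pool.Agent.MP3145b1.UM Pool.Agent.MP3145b1.LD Pool.Agent.MP3145b1.AG

/-- second factorial moment of the level for the product measure -/
noncomputable def Mm (a p : ℕ → ℝ) (J : Finset ℕ) (F : ℝ → ℝ) (z : ℝ) : ℝ :=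
  ∑ T ∈ J.powerset, ((T.card : ℝ) * ((T.card : ℝ) - 1)) * (wt p T * Co a p J T F z ^ 2)

theorem card_mul (T : Finset ℕ) : 0 ≤ (T.card : ℝ) * ((T.card : ℝ) - 1) := by
  rcases Nat.eq_zero_or_pos T.card with h | h
  · rw [h]; simp
  · have h1 : (1 : ℝ) ≤ T.card := by exact_mod_cast h
    exact mul_nonneg (by linarith) (by linarith)

/-- reading one variable does not increase the second moment -/
theorem Mm_avg (a p : ℕ → ℝ) (J : Finset ℕ) (i : ℕ) (F : ℝ → ℝ) (z : ℝ) (hi : i ∉ J)
    (hp : ∀ i, 0 ≤ p i ∧ p i ≤ 1) :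
    p i * Mm a p J F z + (1 - p i) * Mm a p J F (z + a i) ≤ Mm a p (insert i J) F z := by
  have hv : 0 ≤ p i * (1 - p i) := mul_nonneg (hp i).1 (by linarith [(hp i).2])
  have hne : ∀ T ∈ J.powerset, i ∉ T := fun T hT h0 => hi (Finset.mem_powerset.1 hT h0)
  have h1 : ∀ T ∈ J.powerset, Co a p (insert i J) T F z =
      p i * Co a p J T F z + (1 - p i) * Co a p J T F (z + a i) := fun T hT =>
    Co_insert_not a p J T i hi (Finset.mem_powerset.1 hT) F z
  have h2 : ∀ T ∈ J.powerset, Co a p (insert i J) (insert i T) F z =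
      (Co a p J T F z - Co a p J T F (z + a i)) / 2 := fun T hT =>
    Co_insert_mem a p J T i hi (Finset.mem_powerset.1 hT) F z
  unfold Mm
  rw [Finset.sum_powerset_insert hi, Finset.mul_sum, Finset.mul_sum, ← Finset.sum_add_distrib,
    ← Finset.sum_add_distrib]
  refine Finset.sum_le_sum fun T hT => ?_
  rw [h1 T hT, h2 T hT, wt_insert p T i (hne T hT), Finset.card_insert_of_notMem (hne T hT)]
  push_cast
  have hk : (0 : ℝ) ≤ T.card := Nat.cast_nonneg _
  have hw := wt_nonneg hp T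
  have h3 : 0 ≤ 2 * (T.card : ℝ) * (p i * (1 - p i)) * (wt p T *
      (Co a p J T F z - Co a p J T F (z + a i)) ^ 2) := by positivity
  have h4 : (T.card : ℝ) * ((T.card : ℝ) - 1) *
        (wt p T * (p i * Co a p J T F z + (1 - p i) * Co a p J T F (z + a i)) ^ 2) +
      ((T.card : ℝ) + 1) * ((T.card : ℝ) + 1 - 1) *
        (4 * (p i * (1 - p i)) * wt p T * ((Co a p J T F z - Co a p J T F (z + a i)) / 2) ^ 2) -
      (p i * ((T.card : ℝ) * ((T.card : ℝ) - 1) * (wt p T * Co a p J T F z ^ 2)) +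
        (1 - p i) * ((T.card : ℝ) * ((T.card : ℝ) - 1) * (wt p T * Co a p J T F (z + a i) ^ 2))) =
      2 * (T.card : ℝ) * (p i * (1 - p i)) * (wt p T *
        (Co a p J T F z - Co a p J T F (z + a i)) ^ 2) := by ring
  linarith

private theorem Hr_v {p : ℕ → ℝ} (hp : ∀ i, 0 ≤ p i ∧ p i ≤ 1) (i : ℕ) : 0 ≤ p i * (1 - p i) :=
  mul_nonneg (hp i).1 (by linarith [(hp i).2])

private theorem Hr_Dd (a : ℕ → ℝ) {p : ℕ → ℝ} (hp : ∀ i, 0 ≤ p i ∧ p i ≤ 1) (J : Finset ℕ) (F : ℝ → ℝ)
    (z : ℝ) : 0 ≤ Dd a p J F z := by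
  unfold Dd
  refine Finset.sum_nonneg fun T hT => mul_nonneg ?_ (mul_nonneg (wt_nonneg hp T) (sq_nonneg _))
  have h : 1 ≤ T.card := Finset.card_pos.2 (Finset.nonempty_iff_ne_empty.2 (Finset.mem_erase.1 hT).1)
  have h' : (1 : ℝ) ≤ T.card := by exact_mod_cast h
  linarith

private theorem Hr_Ti (a p : ℕ → ℝ) (J : Finset ℕ) (F : ℝ → ℝ) (z : ℝ) :
    Ti a p J F z = Dd a p J F z + ∑ T ∈ J.powerset.erase ∅, wt p T * Co a p J T F z ^ 2 := by
  unfold Ti Dd
  rw [← Finset.sum_erase J.powerset (a := (∅ : Finset ℕ)) (f := fun T : Finset ℕ =>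
    (T.card : ℝ) * (wt p T * Co a p J T F z ^ 2)) (by simp), ← Finset.sum_add_distrib]
  exact Finset.sum_congr rfl fun T _ => by ring

private theorem Hr_QQ (h1 : S_TPar) (a p : ℕ → ℝ) (J : Finset ℕ) (F : ℝ → ℝ) (z : ℝ) (i : ℕ) (hi : i ∈ J) :
    QQ a p J F z i = Av a p (J.erase i) (fun y => hA (a i) F y ^ 2) z := by
  have e : ∀ T ∈ (J.erase i).powerset,
      Co a p J (insert i T) F z = Co a p (J.erase i) T (hA (a i) F) z := by
    intro T hT
    have h := Co_insert_mem a p (J.erase i) T i (Finset.notMem_erase i J)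
      (Finset.mem_powerset.1 hT) F z
    rw [Finset.insert_erase hi] at h
    rw [Co_hA]
    exact h
  unfold QQ
  rw [← (h1 a p (J.erase i) ∅ (hA (a i) F) z (Finset.empty_subset _)).1]
  exact Finset.sum_congr rfl fun T hT => by rw [e T hT]

/-- The sharp inequality follows from the plain inequality for all restrictions (with a second moment term). -/
theorem hr (h1 : S_TPar) (h2 : S_ARc) (h3 : S_AFk) (h4 : S_ANd) (a p : ℕ → ℝ) (F : ℝ → ℝ) (c K e : ℝ)
    (hp : ∀ i, 0 ≤ p i ∧ p i ≤ 1) (hF : ∀ y, F y = 1 ∨ F y = -1) (hc : 0 ≤ c) (hK : 23 ≤ K)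
    (hcK : 4 * c ≤ K) (he : 0 ≤ e) : ∀ (J : Finset ℕ) (z : ℝ),
    (∀ J' U : Finset ℕ, J' ⊆ J → U ⊆ J \ J' → Hs a p J' F (z + ∑ i ∈ U, a i) ≤
      c * Ti a p J' F (z + ∑ i ∈ U, a i) + e * Mm a p J' F (z + ∑ i ∈ U, a i)) →
    Hs a p J F z ≤ K * Dd a p J F z + e * Mm a p J F z := by
  intro J
  induction J using Finset.strongInduction with
  | H J ih =>
    intro z hyp
    by_cases hall : ∀ i ∈ J, QQ a p J F z i ≤ 1 / 2
    · have hV := h3 a p J F z hp hF hall
      have hD := Hr_Dd a hp J F z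
      have hT := Hr_Ti a p J F z
      have h0 := hyp J ∅ (Finset.Subset.refl J) (Finset.empty_subset _)
      rw [Finset.sum_empty, add_zero] at h0
      have h5 : Ti a p J F z ≤ 4 * Dd a p J F z := by rw [hT]; linarith
      have h6 : c * Ti a p J F z ≤ c * (4 * Dd a p J F z) := mul_le_mul_of_nonneg_left h5 hc
      have h7 : 4 * c * Dd a p J F z ≤ K * Dd a p J F z := mul_le_mul_of_nonneg_right hcK hD
      linarith
    · push Not at hall
      obtain ⟨i, hi, hQ⟩ := hall
      have hss : J.erase i ⊂ J := Finset.erase_ssubset hi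
      have hni : i ∉ J.erase i := Finset.notMem_erase i J
      have hins : insert i (J.erase i) = J := Finset.insert_erase hi
      rw [Hr_QQ h1 a p J F z i hi] at hQ
      obtain ⟨r1, r2⟩ := h2 a p (J.erase i) i F z hni hp hF
      rw [hins] at r1 r2
      have r3 := h4 a p (J.erase i) i F z hp hF hQ
      have i1 := ih (J.erase i) hss z (by
        intro J' U hJ hU
        refine hyp J' U (hJ.trans (Finset.erase_subset i J)) (hU.trans ?_)
        exact Finset.sdiff_subset_sdiff (Finset.erase_subset i J) (Finset.Subset.refl J'))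
      have i2 := ih (J.erase i) hss (z + a i) (by
        intro J' U hJ hU
        have hiU : i ∉ U := fun h => hni (Finset.mem_sdiff.1 (hU h)).1
        have hiJ : i ∉ J' := fun h => hni (hJ h)
        have h := hyp J' (insert i U) (hJ.trans (Finset.erase_subset i J)) (by
          intro x hx
          rw [Finset.mem_insert] at hx
          rw [Finset.mem_sdiff]
          rcases hx with rfl | hx
          · exact ⟨hi, hiJ⟩
          · have hx' := Finset.mem_sdiff.1 (hU hx)
            exact ⟨Finset.mem_of_mem_erase hx'.1, hx'.2⟩)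
        rw [Finset.sum_insert hiU, ← add_assoc] at h
        exact h)
      have hM := Mm_avg a p (J.erase i) i F z hni hp
      rw [hins] at hM
      have hM' := mul_le_mul_of_nonneg_left hM he
      have hp0 := (hp i).1
      have hp1 : 0 ≤ 1 - p i := by linarith [(hp i).2]
      have j1 := mul_le_mul_of_nonneg_left i1 hp0
      have j2 := mul_le_mul_of_nonneg_left i2 hp1
      have hX : 0 ≤ p i * (1 - p i) * ∑ T ∈ (J.erase i).powerset.erase ∅,
          wt p T * Co a p (J.erase i) T (hA (a i) F) z ^ 2 :=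
        mul_nonneg (Hr_v hp i) (Finset.sum_nonneg fun T _ =>
          mul_nonneg (wt_nonneg hp T) (sq_nonneg _))
      have hKX : 23 * (p i * (1 - p i) * ∑ T ∈ (J.erase i).powerset.erase ∅,
          wt p T * Co a p (J.erase i) T (hA (a i) F) z ^ 2) ≤
          K * (p i * (1 - p i) * ∑ T ∈ (J.erase i).powerset.erase ∅,
          wt p T * Co a p (J.erase i) T (hA (a i) F) z ^ 2) :=
        mul_le_mul_of_nonneg_right hK hX
      rw [r2]
      have e1 : K * (p i * Dd a p (J.erase i) F z + (1 - p i) * Dd a p (J.erase i) F (z + a i) +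
          4 * (p i * (1 - p i)) * ∑ T ∈ (J.erase i).powerset.erase ∅,
            wt p T * Co a p (J.erase i) T (hA (a i) F) z ^ 2) =
          p i * (K * Dd a p (J.erase i) F z) + (1 - p i) * (K * Dd a p (J.erase i) F (z + a i)) +
          4 * (K * (p i * (1 - p i) * ∑ T ∈ (J.erase i).powerset.erase ∅,
            wt p T * Co a p (J.erase i) T (hA (a i) F) z ^ 2)) := by ring
      have e2 : e * (p i * Mm a p (J.erase i) F z + (1 - p i) * Mm a p (J.erase i) F (z + a i)) =
          p i * (e * Mm a p (J.erase i) F z) + (1 - p i) * (e * Mm a p (J.erase i) F (z + a i)) := by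
        ring
      rw [e2] at hM'
      rw [e1]
      linarith

end Pool.Agent.MP3145b1.GP
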